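import Mathlib

set_option autoImplicit false

namespace Pool.Agent.Results.MP_90db2d_al.KnitDegreeTwo

/-- A left path of length `n` in the commuting graph. -/
def LeftPath {S : Type} [Semigroup S] (n : ℕ) (x : Fin (n + 1) → S) : Prop :=
  Function.Injective x ∧ (∀ i, ∃ y : S, x i * y ≠ y * x i) ∧
    (∀ i : Fin n, x i.castSucc * x i.succ = x i.succ * x i.castSucc) ∧
    x 0 ≠ x (Fin.last n) ∧ ∀ i, x 0 * x i = x (Fin.last n) * x i

def tbl : ℕ := 11241421263150735631244760943053790486428902408145918394441456080147973219256303617013413387352988156245384940308934939375829727084240634972428152895256374559714807298995028282629028228411447378976291670173490469064026236947744018837552783711571552370669261487238266437398623705371456972403208676909240160784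

def T := Fin 16

instance : DecidableEq T := inferInstanceAs (DecidableEq (Fin 16))
instance : Fintype T := inferInstanceAs (Fintype (Fin 16))

def mul (a b : Fin 16) : Fin 16 := Fin.ofNat 16 (tbl >>> (4 * (16 * a.val + b.val)))

theorem assoc : ∀ a b c : Fin 16, mul (mul a b) c = mul a (mul b c) := by decide +kernel

instance : Semigroup T where
  mul := mul
  mul_assoc := assoc

theorem inv_ex : ∀ x : Fin 16, ∃ y : Fin 16, (mul (mul x y) x = x ∧ mul (mul y x) y = y) ∧
    ∀ z : Fin 16, mul (mul x z) x = x ∧ mul (mul z x) z = z → z = y := by decide +kernel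

theorem no_one : ∀ a b : Fin 16, a ≠ b → (∃ y, mul a y ≠ mul y a) → (∃ y, mul b y ≠ mul y b) →
    mul a b = mul b a → mul a a = mul b a → mul a b = mul b b → False := by decide +kernel

def p : Fin 3 → Fin 16 := ![4, 3, 7]

theorem path : Function.Injective p ∧ (∀ i, ∃ y : Fin 16, mul (p i) y ≠ mul y (p i)) ∧
    (∀ i : Fin 2, mul (p i.castSucc) (p i.succ) = mul (p i.succ) (p i.castSucc)) ∧
    p 0 ≠ p (Fin.last 2) ∧ ∀ i, mul (p 0) (p i) = mul (p (Fin.last 2)) (p i) := by
  decide +kernel

/-- A finite inverse semigroup of knit degree two. -/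
theorem result : ∃ (S : Type) (_ : Semigroup S), Finite S ∧
    (∀ x : S, ∃! y : S, x * y * x = x ∧ y * x * y = y) ∧ (∃ a b : S, a * b ≠ b * a) ∧
    (∃ x : Fin (2 + 1) → S, LeftPath 2 x) ∧
    ∀ (n : ℕ) (x : Fin (n + 1) → S), LeftPath n x → 2 ≤ n := by
  refine ⟨T, inferInstance, inferInstance, inv_ex, ⟨_, path.2.1 0⟩, ⟨p, path⟩, ?_⟩
  rintro n x ⟨-, h2, h3, h4, h5⟩
  match n with
  | 0 => exact absurd rfl h4
  | 1 => exact (no_one (x 0) (x 1) h4 (h2 0) (h2 1) (h3 0) (h5 0) (h5 1)).elim
  | n + 2 => omega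

end Pool.Agent.Results.MP_90db2d_al.KnitDegreeTwo
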